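import Pool.Agent.J4H9.BC.Stm

/-!
# Project BC: the orders of `traceZeta` at the integers
-/

set_option autoImplicit false

namespace Pool.Agent.J4H44.BC

open Pool.Agent.J4H9.BC

section

variable {q : ℕ} (hq : 1 < q)

include hq

theorem analytic_factor (c z : ℂ) : AnalyticAt ℂ (fun s : ℂ => 1 - c * (q : ℂ) ^ (-s)) z := by
  have hqC : (q : ℂ) ≠ 0 := by exact_mod_cast (ne_of_gt (lt_trans Nat.zero_lt_one hq))
  have h1 : (fun s : ℂ => 1 - c * (q : ℂ) ^ (-s)) =
      fun s => 1 - c * Complex.exp (Complex.log q * (-s)) := by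
    funext s
    rw [Complex.cpow_def_of_ne_zero hqC]
  rw [h1]
  fun_prop

theorem deriv_factor (c z : ℂ) : deriv (fun s : ℂ => 1 - c * (q : ℂ) ^ (-s)) z =
    c * (q : ℂ) ^ (-z) * Complex.log q := by
  have hqC : (q : ℂ) ≠ 0 := by exact_mod_cast (ne_of_gt (lt_trans Nat.zero_lt_one hq))
  have h1 : HasDerivAt (fun s : ℂ => (q : ℂ) ^ (-s)) ((q : ℂ) ^ (-z) * Complex.log q * (-1)) z :=
    (hasDerivAt_neg z).const_cpow (Or.inl hqC)
  have h2 := (h1.const_mul c).const_sub 1
  rw [h2.deriv]
  ring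

theorem order_factor [DecidableEq ℂ] (c : ℂ) (m : ℤ) :
    meromorphicOrderAt (fun s : ℂ => 1 - c * (q : ℂ) ^ (-s)) (m : ℂ) =
      ((if c = (q : ℂ) ^ m then 1 else 0 : ℤ) : WithTop ℤ) := by
  have hqC : (q : ℂ) ≠ 0 := by exact_mod_cast (ne_of_gt (lt_trans Nat.zero_lt_one hq))
  have hqm : (q : ℂ) ^ (-(m : ℂ)) = ((q : ℂ) ^ m)⁻¹ := by
    rw [Complex.cpow_neg, Complex.cpow_intCast]
  have hq1 : (q : ℂ) ^ m ≠ 0 := zpow_ne_zero _ hqC
  rw [(analytic_factor hq c m).meromorphicOrderAt_eq]
  split_ifs with h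
  · have h1 : analyticOrderAt (fun s : ℂ => 1 - c * (q : ℂ) ^ (-s)) (m : ℂ) = 1 := by
      refine (analytic_factor hq c m).analyticOrderAt_eq_one_of_zero_deriv_ne_zero ?_ ?_
      · rw [hqm, h, mul_inv_cancel₀ hq1, sub_self]
      · rw [deriv_factor hq, hqm, h, mul_inv_cancel₀ hq1, one_mul]
        have h2 : Complex.log (q : ℂ) = (Real.log q : ℂ) := by
          rw [← Complex.ofReal_natCast, Complex.ofReal_log (Nat.cast_nonneg q)]
        rw [h2]
        exact_mod_cast (Real.log_pos (by exact_mod_cast hq)).ne'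
    rw [h1]
    rfl
  · have h1 : analyticOrderAt (fun s : ℂ => 1 - c * (q : ℂ) ^ (-s)) (m : ℂ) = 0 := by
      refine analyticOrderAt_eq_zero.2 (Or.inr ?_)
      rw [hqm]
      intro h2
      apply h
      have h3 : c * ((q : ℂ) ^ m)⁻¹ = 1 := (sub_eq_zero.1 h2).symm
      rw [← div_eq_mul_inv, div_eq_one_iff_eq hq1] at h3
      exact h3
    rw [h1]
    rfl

omit hq in
theorem order_prod {α : Type*} (P : Multiset α) (G : α → ℂ → ℂ) (z : ℂ) (o : α → ℤ)
    (hG : ∀ S ∈ P, MeromorphicAt (G S) z)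
    (ho : ∀ S ∈ P, meromorphicOrderAt (G S) z = ((o S : ℤ) : WithTop ℤ)) :
    MeromorphicAt (fun s => (P.map fun S => G S s).prod) z ∧
    meromorphicOrderAt (fun s => (P.map fun S => G S s).prod) z =
      (((P.map o).sum : ℤ) : WithTop ℤ) := by
  classical
  induction P using Multiset.induction_on with
  | empty =>
    simp only [Multiset.map_zero, Multiset.prod_zero, Multiset.sum_zero]
    refine ⟨MeromorphicAt.const 1 z, ?_⟩
    rw [meromorphicOrderAt_const]
    simp
  | cons S P ih =>
    simp only [Multiset.map_cons, Multiset.prod_cons, Multiset.sum_cons]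
    obtain ⟨h1, h2⟩ := ih (fun T hT => hG T (Multiset.mem_cons_of_mem hT))
      (fun T hT => ho T (Multiset.mem_cons_of_mem hT))
    have h3 := hG S (Multiset.mem_cons_self S P)
    refine ⟨h3.mul h1, ?_⟩
    have h4 := meromorphicOrderAt_mul h3 h1
    rw [ho S (Multiset.mem_cons_self S P), h2, ← WithTop.coe_add] at h4
    exact h4

omit hq in
theorem mero_prod {α : Type*} (P : Multiset α) (G : α → ℂ → ℂ) (z : ℂ)
    (hG : ∀ S ∈ P, MeromorphicAt (G S) z) :
    MeromorphicAt (fun s => (P.map fun S => G S s).prod) z := by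
  induction P using Multiset.induction_on with
  | empty =>
    simp only [Multiset.map_zero, Multiset.prod_zero]
    exact MeromorphicAt.const 1 z
  | cons S P ih =>
    simp only [Multiset.map_cons, Multiset.prod_cons]
    exact (hG S (Multiset.mem_cons_self S P)).mul
      (ih fun T hT => hG T (Multiset.mem_cons_of_mem hT))

end

open Classical in
theorem t_ORD : S_ORD := by
  intro q hq P
  constructor
  · intro z _
    exact mero_prod P (fun t s => (1 - t.2 * (q : ℂ) ^ (-s)) ^ (-t.1)) z
      fun t _ => (analytic_factor hq t.2 z).meromorphicAt.zpow _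
  · intro m hP
    have h1 := (order_prod P
      (fun t s => (1 - t.2 * (q : ℂ) ^ (-s)) ^ (-t.1)) (m : ℂ)
      (fun t => if t.2 = (q : ℂ) ^ m then -1 else 0)
      (fun t _ => (analytic_factor hq t.2 m).meromorphicAt.zpow _) (fun t ht => ?_)).2
    · have h2 : ∀ P : Multiset (ℤ × ℂ),
          (P.map fun t : ℤ × ℂ => if t.2 = (q : ℂ) ^ m then (-1 : ℤ) else 0).sum =
          -(Multiset.card (P.filter fun t => t.2 = (q : ℂ) ^ m) : ℤ) := by
        intro P
        induction P using Multiset.induction_on with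
        | empty => simp
        | cons t P ih =>
          rw [Multiset.map_cons, Multiset.sum_cons, ih]
          split_ifs with h
          · rw [Multiset.filter_cons_of_pos (p := fun t : ℤ × ℂ => t.2 = (q : ℂ) ^ m) P h,
              Multiset.card_cons]
            push_cast
            ring
          · rw [Multiset.filter_cons_of_neg (p := fun t : ℤ × ℂ => t.2 = (q : ℂ) ^ m) P h,
              zero_add]
      rw [h2] at h1
      exact h1
    · have h3 := meromorphicOrderAt_zpow (analytic_factor hq t.2 m).meromorphicAt (n := -t.1)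
      rw [order_factor hq] at h3
      have h4 : meromorphicOrderAt (fun s : ℂ => (1 - t.2 * (q : ℂ) ^ (-s)) ^ (-t.1)) (m : ℂ) =
          ((-t.1 : ℤ) : WithTop ℤ) *
          ((if t.2 = (q : ℂ) ^ m then 1 else 0 : ℤ) : WithTop ℤ) := h3
      rw [h4, ← WithTop.coe_mul]
      congr 1
      split_ifs with h
      · rw [hP t ht h, mul_one]
      · rw [mul_zero]

end Pool.Agent.J4H44.BC
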